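import Pool.Agent.Lib.MP_a325a5_ag.G2.FinG

/-!
# Zilber-Pink for the subvarieties of codimension at most three of `𝔾_mⁿ` over a curve of `𝔾_m³`

Let `C` be an irreducible closed curve in the three dimensional torus over the algebraic numbers which is
not contained in a proper coset (no `x ^ a`, `a ≠ 0`, is constant on `C`).  Suppose that for some complex
embedding `τ` of the algebraic numbers

(NA) every line `ℝ d` of `ℝ³` contains the vector `(log |w_1|, log |w_2|, log |w_3|)` for only finitely many
complex points `w` of the curve `τ C`.

Let `X` be an irreducible closed subvariety of `𝔾_mⁿ` over the complex numbers, of codimension at most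
three, and suppose that three independent characters `x ↦ x ^ a_j` map `X` into `C`.  Then the union
of the atypical special subvarieties of `X` is not Zariski dense in `X`.

Examples: all hypersurfaces of `C × 𝔾_m^(n - 3)` (of every dimension and degree).  For surfaces of `𝔾_m⁵` the
surfaces fibred over such curves are the ones to which the theorems on bounded height do not apply:
all their points lie on anomalous curves.

(NA) can fail only for special curves.  If `C` is the line `{(γ_j (t - α_j))_j}` with distinct `α_j` then it holds
whenever the `τ α_j` are not collinear, and in the collinear case it says that for each `k` two explicit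
circles meet in finitely many points.

Idea of the proof.  The points of small rank have algebraic coordinates and are solutions of a linear
equation `∑ f_i(c_1) z_i = 0` without vanishing subsums, with `c ∈ C` and `z_i` in the division hull of
`⟨c_1, c_2, c_3⟩`, which has rank two.  The heights of the `c` are bounded (a linear height inequality with a
constant uniform in the character).  If the heights of the `z_i` are large then at a positive proportion
of the complex places the vector `(log |c_j|)_j` is near one of finitely many lines through the origin,
so the conjugates of `c` cluster near a finite set and a discriminant estimate bounds the degree of `c`.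
Otherwise small relations (geometry of numbers), a weak relative lower bound for products of heights in
the style of Amoroso and David, and a dimension count in a valuation ring of the cover of `C` that passes
through the point bound the degree, unless the equation holds identically on this cover; these covers
are finitely many (a derivation, a Kummer argument, and roots of unity in linear equations).
-/

namespace Pool.Agent.Results.MP_a325a5_ag.CodimThreeOverCurve

open Pool.Agent.Lib.MP_a325a5_ag.UL Pool.Agent.Lib.MP_a325a5_ag.G2

/-- Let `C` be an irreducible closed curve of the three dimensional torus over the algebraic numbers that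
is not contained in a proper coset, such that for some complex embedding `τ` no line `ℝ d` contains the
logarithmic vectors of infinitely many points of `τ C`.  Then for all irreducible closed complex
subvarieties `X` of `𝔾_mⁿ` of dimension at least `n - 3` such that three independent characters map `X` into
`C`, the atypical locus of `X` is not Zariski dense in `X`. -/
theorem result (C : Set (Fin 3 → (AlgebraicClosure ℚ)ˣ)) (hC : IrrClosed C) (hd : zdim C = 1)
    (hcos : ∀ a : Fin 3 → ℤ, a ≠ 0 → ∀ ζ : (AlgebraicClosure ℚ)ˣ,
      ¬ ∀ x ∈ C, ∏ j, x j ^ a j = ζ)
    (τ : AlgebraicClosure ℚ →+* ℂ)
    (hNA : ∀ d : Fin 3 → ℝ, d ≠ 0 →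
      {w : Fin 3 → ℂˣ | w ∈ cpts τ C ∧ ∃ ρ : ℝ, ∀ j, Real.log ‖(w j : ℂ)‖ = ρ * d j}.Finite)
    (φ : AlgebraicClosure ℚ →+* ℂ) (n : ℕ) (a : Fin 3 → Fin n → ℤ) (ha : LinearIndependent ℤ a)
    (X : Set (Fin n → ℂˣ)) (hX : IrrClosed X) (hdim : (n : WithBot ℕ∞) ≤ zdim X + 3)
    (hXC : ∀ y ∈ X, (fun j => ∏ i, y i ^ a j i) ∈ cpts φ C) :
    ¬ DenseIn (HLatyp X) X :=
  BMG.theoremG C hC hd hcos τ hNA φ n a ha X hX hdim hXC

end Pool.Agent.Results.MP_a325a5_ag.CodimThreeOverCurve
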