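import Pool.Agent.Lib.MP_a325a5_ag.UL.Main

/-! Universality of the line for the Zilber-Pink conjecture for tori. -/

namespace Pool.Agent.Results.MP_a325a5_ag.LineUniversality

open Pool.Agent.Lib.MP_a325a5_ag.UL

/-- The Zilber-Pink conjecture (the problem's Q1) for all tori `𝔾_m^n` and all their irreducible
closed complex subvarieties `X`, of any dimension and codimension, is equivalent to the following
statement on the powers of one single line over the algebraic numbers: for every finite set `D`
the variety `ℓ^D`, where `ℓ ⊆ 𝔾_m²` is the line `x + y = 1` over the algebraic closure of `ℚ`, has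
only finitely many maximal atypical special subvarieties. -/
theorem result :
    (∀ (ι : Type) [Fintype ι] (X : Set (ι → ℂˣ)), IrrClosed X → ¬ DenseIn (HLatyp X) X) ↔
      ∀ (D : Type) [Fintype D], (MaxAtypical (lineProd (AlgebraicClosure ℚ) D)).Finite :=
  universality

end Pool.Agent.Results.MP_a325a5_ag.LineUniversality
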