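import Pool.Agent.Lib.MP_a325a5_ag.Mixed.Defs
import Pool.Agent.Lib.MP_a325a5_ag.Mixed.Place
import Pool.Agent.Lib.MP_a325a5_ag.Mixed.Gen
import Pool.Agent.Lib.MP_a325a5_ag.Mixed.Family
import Pool.Agent.Lib.MP_a325a5_ag.Mixed.Vals
import Pool.Agent.Lib.MP_a325a5_ag.Mixed.Indep
import Pool.Agent.Lib.MP_a325a5_ag.Mixed.Rel
import Pool.Agent.Lib.MP_a325a5_ag.Mixed.Count

/-! Zilber-Pink with empty atypical locus for explicit families of subvarieties, of all dimensions
and codimensions, of the fibre powers of the Legendre family of elliptic curves. -/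

namespace Pool.Agent.Results.MP_a325a5_ag.MixedSystems

open Pool.Agent.Lib.MP_a325a5_ag.Mixed WeierstrassCurve.Affine Finset

open scoped WithZero

theorem v_le_of_le {F K : Type*} [Field F] [Field K] [Algebra F K] (vF : Valuation F ℤᵐ⁰)
    (A : ValuationSubring K) (hA : ∀ c : F, algebraMap F K c ∈ A ↔ c ∈ vF.valuationSubring)
    {a b : F} (hab : vF a ≤ vF b) :
    A.valuation (algebraMap F K a) ≤ A.valuation (algebraMap F K b) := by
  by_cases hb : b = 0
  · subst hb
    rw [map_zero, le_zero_iff, Valuation.zero_iff] at hab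
    rw [hab]
  · have h1 : a / b ∈ vF.valuationSubring := by
      rw [Valuation.mem_valuationSubring_iff, map_div₀]
      exact div_le_one_of_le₀ hab zero_le
    have h2 := (ValuationSubring.valuation_le_one_iff A _).mpr ((hA _).mpr h1)
    rw [map_div₀, map_div₀] at h2
    have h3 : A.valuation (algebraMap F K b) ≠ 0 := by
      rw [Valuation.ne_zero_iff]
      exact (map_ne_zero _).mpr hb
    rwa [div_le_one₀ (zero_lt_iff.mpr h3)] at h2

theorem result (n r d : ℕ) (hnd : n < d) :
    ∃ E₀ : ℕ, ∀ e M : ℕ, 0 < e → 0 < M → E₀ ≤ e * M →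
      ∃ (w : Fin r → Bool → Finset (Fin n) → ℕ) (W : ℕ),
        ∀ (F : Type) [Field F] [CharZero F] (vF : Valuation F ℤᵐ⁰),
          vF 3 = WithZero.exp (-(e : ℤ)) → ∀ a : Fin r → ℕ × (Fin n → ℕ) → F,
          (∀ k σ B, vF (a k (corner M d σ B)) = WithZero.exp (-(w k σ B : ℤ))) →
          (∀ k, ∀ s ∈ box n M d, (∀ σ B, s ≠ corner M d σ B) →
            vF (a k s) ≤ WithZero.exp (-(W : ℤ))) →
        ∀ (K : Type) [Field K] [DecidableEq K] [Algebra F K] (lam : K), lam ≠ 0 → lam ≠ 1 →
        ∀ P : Fin n → (legendre lam).Point,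
          (∀ k, form M d (fun s => algebraMap F K (a k s)) lam P = 0) →
        ∀ S : Finset (Option (Fin n)),
          AlgebraicIndependent F (fun z : {z // z ∈ S} => coord lam P z) →
        (∀ (h : ℕ) (q : Fin h → Fin n → ℤ), LinearIndependent ℤ q →
          (∀ j, ∑ i, q j i • P i = 0) → S.card + h + r ≤ n + 1) ∧
        (IsAlgClosed K →
          IsIntegral ℤ (256 * (lam ^ 2 - lam + 1) ^ 3 / (lam ^ 2 * (lam - 1) ^ 2)) →
          ∀ (R : Type) [CommRing R] [Nontrivial R] [Module R (legendre lam).Point],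
            AlgAction lam R → ∀ (h : ℕ) (q : Fin h → Fin n → R), LinearIndependent R q →
            (∀ j, ∑ i, q j i • P i = 0) → S.card + h + r ≤ n) := by
  classical
  obtain ⟨E₀, ρ, hE₀, hρ, hgen⟩ := exists_generic r n ((n + d : ℕ) : ℤ)
  refine ⟨E₀, fun e M he hM hEM => ⟨fun k σ B => e * M * (n + 2) * B.card + ρ k σ B,
    e * M * (n + 2) * (n + 1), ?_⟩⟩
  intro F _ _ vF hv3 a ha1 ha2 K _ _ _ lam hlam hlam1 P hP S hS
  have : CharZero K := charZero_of_injective_algebraMap (algebraMap F K).injective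
  obtain ⟨D, idx, hSD, hidx1, hidx2, hidx3, hidx4⟩ := exists_family (coord lam P) S hS
  obtain ⟨A, hA, hbig, hsep⟩ := exists_place vF.valuationSubring D
    (fun j => coord lam P (idx j)) hidx1
  have h30F : (3 : F) ≠ 0 := three_ne_zero
  have h30 : (3 : K) ≠ 0 := three_ne_zero
  have hle : ∀ {a b : F}, vF a ≤ vF b →
      A.valuation (algebraMap F K a) ≤ A.valuation (algebraMap F K b) :=
    fun h => v_le_of_le vF A hA h
  have h3alg : algebraMap F K 3 = 3 := map_ofNat _ 3
  have h3 : A.valuation (3 : K) < 1 := by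
    rw [← h3alg]
    by_contra hcon
    have h1 : A.valuation (algebraMap F K 3⁻¹) ≤ 1 := by
      rw [map_inv₀, map_inv₀]
      exact inv_le_one_of_one_le₀ (not_lt.mp hcon)
    have h2 := (hA _).mp ((ValuationSubring.valuation_le_one_iff A _).mp h1)
    rw [Valuation.mem_valuationSubring_iff, map_inv₀, hv3, ← WithZero.exp_neg, neg_neg,
      ← WithZero.exp_zero, WithZero.exp_le_exp] at h2
    omega
  have hv30 : A.valuation (3 : K) ≠ 0 := (Valuation.ne_zero_iff _).mpr h30
  have hv3p : 0 < A.valuation (3 : K) := zero_lt_iff.mpr hv30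
  have hv3i : A.valuation (algebraMap F K 3⁻¹) = (A.valuation 3)⁻¹ := by
    rw [map_inv₀, map_inv₀, h3alg]
  -- the coefficients
  have hexp : ∀ m : ℕ, (WithZero.exp (-(m : ℤ)) : ℤᵐ⁰) ^ e = vF (3 ^ m) := by
    intro m
    rw [map_pow, hv3, ← WithZero.exp_nsmul, ← WithZero.exp_nsmul]
    congr 1
    simp only [nsmul_eq_mul]
    ring
  have hc1 : ∀ k σ B, A.valuation (algebraMap F K (a k (corner M d σ B))) ^ e =
      A.valuation 3 ^ (e * M * (n + 2) * B.card + ρ k σ B) := by
    intro k σ B
    have h1 : vF (a k (corner M d σ B) ^ e) =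
        vF (3 ^ (e * M * (n + 2) * B.card + ρ k σ B)) := by
      rw [map_pow, ha1, hexp]
    have h2 := le_antisymm (hle h1.le) (hle h1.ge)
    simpa [map_pow, h3alg] using h2
  have hc2 : ∀ k, ∀ s ∈ box n M d, (∀ σ B, s ≠ corner M d σ B) →
      A.valuation (algebraMap F K (a k s)) ^ e ≤ A.valuation 3 ^ (e * M * (n + 2) * (n + 1)) := by
    intro k s hs hne
    have h1 : vF (a k s ^ e) ≤ vF (3 ^ (e * M * (n + 2) * (n + 1))) := by
      rw [map_pow, ← hexp]
      exact pow_le_pow_left₀ zero_le (ha2 k s hs hne) e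
    have h2 := hle h1
    simpa [map_pow, h3alg] using h2
  -- largeness
  have hlarge : ∀ j i, idx j = some i → P i ≠ 0 ∧ Large A.valuation (P i) := by
    intro j i hji
    have hb : ∀ c : F, A.valuation (algebraMap F K c) < A.valuation ((P i).xRep 0) := by
      intro c
      have := hbig j c
      rw [hji] at this
      exact this
    have hPi : P i ≠ 0 := by
      intro h0
      have h1 := hb 1
      rw [h0] at h1
      simp at h1
    refine ⟨hPi, ?_⟩
    have hmul : ∀ c : F, A.valuation (algebraMap F K c) <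
        A.valuation 3 * A.valuation ((P i).xRep 0) := by
      intro c
      have h1 := hb (c * 3⁻¹)
      rw [map_mul, map_mul, hv3i] at h1
      have h2 := mul_lt_mul_of_pos_left h1 hv3p
      rwa [mul_comm (A.valuation (algebraMap F K c)), ← mul_assoc, mul_inv_cancel₀ hv30,
        one_mul] at h2
    have h1 : (1 : A.ValueGroup) < A.valuation 3 * A.valuation ((P i).xRep 0) := by
      simpa using hmul 1
    have h2 : A.valuation lam < A.valuation 3 * A.valuation ((P i).xRep 0) := by
      by_cases halg : IsAlgebraic F lam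
      · obtain ⟨c, hc⟩ := algebraic_bounded (F := F) A lam halg
        exact hc.trans_lt (hmul c)
      · obtain ⟨j₀, hj₀⟩ := hidx4 halg
        have hlt : j₀ < j := by
          rcases lt_trichotomy j₀ j with h | h | h
          · exact h
          · rw [← h, hj₀] at hji
            exact absurd hji (by simp)
          · exact absurd hj₀ (hidx2 j j₀ h)
        have h4 := hsep j₀ j hlt 2
        have h5 := hbig j₀ 3⁻¹
        simp only [hj₀, hji, coord] at h4 h5
        rw [hv3i] at h5
        have h6 : 0 < A.valuation lam := zero_lt_iff.mpr ((Valuation.ne_zero_iff _).mpr hlam)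
        have h7 : A.valuation lam ≤ A.valuation 3 * A.valuation lam ^ 2 := by
          have h8 := mul_lt_mul_of_pos_left h5 hv3p
          rw [mul_inv_cancel₀ hv30] at h8
          calc A.valuation lam = 1 * A.valuation lam := (one_mul _).symm
            _ ≤ (A.valuation 3 * A.valuation lam) * A.valuation lam :=
                mul_le_mul_left h8.le _
            _ = A.valuation 3 * A.valuation lam ^ 2 := by rw [mul_assoc, sq]
        exact h7.trans_lt (mul_lt_mul_of_pos_left h4 hv3p)
    cases hPe : P i with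
    | zero => trivial
    | some x y hxy =>
      rw [hPe] at h1 h2
      exact max_lt h1 h2
  have hind : ∀ b : Fin D → ℤ, (∃ y : ℤ, ∏ j, A.valuation (coord lam P (idx j)) ^ b j =
      A.valuation 3 ^ y) → b = 0 := by
    rintro b ⟨y, hy⟩
    refine values_indep A (fun j => coord lam P (idx j)) hbig hsep b (3 ^ y) ?_
    rw [hy, map_zpow₀, map_zpow₀, h3alg]
  obtain ⟨T, hT1, hT2, hT3, hT4⟩ := class_count A.valuation h3 h30 hnd hM he ρ
    (fun k σ B => (hρ k σ B).trans_le hEM) (fun N hN hdep σ σ' B B' hne =>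
      hgen (e * M) hEM N hN hdep σ σ' B B' hne)
    (fun k s => algebraMap F K (a k s)) hc1 hc2 lam hlam P hP idx hlarge hind
  refine ⟨?_, ?_⟩
  · intro h q hq hq0
    have h1 := relations_bound P T (fun c hc => indep A.valuation h3 h30
      (tame_int A.valuation h3 h30) T P (fun i hi => (hT1 i hi).2) (fun i hi => (hT1 i hi).1)
      hT2 c hc) q hq hq0
    omega
  · intro hac hj R _ _ _ hR h q hq hq0
    have hv1 : A.valuation lam = 1 := v_lam_eq_one A h3 lam hlam hj
    have hno : ∀ j, idx j ≠ none := by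
      intro j hj'
      have h1 := hbig j 1
      rw [hj'] at h1
      simp [coord, hv1] at h1
    have h1 := relations_bound P T (fun c hc => indep A.valuation h3 h30
      (tame_of_algAction A.valuation h3 h30 hR) T P (fun i hi => (hT1 i hi).2)
      (fun i hi => (hT1 i hi).1) hT2 c hc) q hq hq0
    have h2 := hT4 hv1 hno
    omega

end Pool.Agent.Results.MP_a325a5_ag.MixedSystems
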