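import Pool.Agent.Lib.MP_a325a5_ag.MU.Main

/-! Universality for the Zilber-Pink conjecture for the products of modular curves and tori. -/

set_option autoImplicit false

namespace Pool.Agent.Results.MP_a325a5_ag.ModularLineUniversality

open Pool.Agent.Lib.MP_a325a5_ag.UM (Pt IrrClosed DenseIn)
open Pool.Agent.Lib.MP_a325a5_ag.MU

/-- Let `α` be a finite set.  The Zilber-Pink conjecture (the problem's Q1) for all the mixed Shimura
varieties `Y(1)^α × 𝔾_m^β`, `β` finite, and all their irreducible closed complex subvarieties `X`, of
any dimension and codimension, is equivalent to the following statement on products of two fixed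
curves over the algebraic numbers: for every finite set `D` the variety `Δ^α × ℓ^D`, where
`Δ = {(x, x)} ⊆ Y(1) × 𝔾_m` and `ℓ ⊆ 𝔾_m²` is the line `x + y = 1`, has only finitely many maximal
atypical special subvarieties. -/
theorem result (α : Type) [Fintype α] :
    (∀ (β : Type) [Fintype β] (X : Set (Pt ℂ α β)), IrrClosed X →
      ¬ DenseIn (HLatyp (YSpecial ℂ α) X) X) ↔
    ∀ (D : Type) [Fintype D],
      (MaxAtypical (YSpecial (AlgebraicClosure ℚ) α) (LD (AlgebraicClosure ℚ) α D)).Finite :=
  universality modAx α

end Pool.Agent.Results.MP_a325a5_ag.ModularLineUniversality
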