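import Pool.Agent.Lib.MP_a325a5_ag.Unif.Final

/-! Zilber-Pink for tori, uniformly in the variety: the translates of closed subvarieties by the
rational points whose valuation matrix lies off a universal cone have no atypical subvarieties. -/

namespace Pool.Agent.Results.MP_a325a5_ag.UniformTranslates

open MvPolynomial Pool.Agent.Lib.MP_a325a5_ag Pool.Agent.Lib.MP_a325a5_ag.Unif WithZero

universe u w z

open Classical in
/-- Let `X` be a closed subset of the torus `G_m ^ n` over a field `Ω`, cut out by an ideal `I`, let
`d < n` and put `D = (d + 1) * (n - d - 1)`.  The hypothesis `ProjectionDegreeLE I d r` says that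
all projections of `X` to `d + 1` of the coordinates lie on hypersurfaces of degree at most `r`; if
`X` has dimension at most `d` then this holds for some `r` (first part).  The hypothesis
`UnitProjections v I d r` says in addition that the equations of these hypersurfaces can be chosen
with coefficients that are zero or algebraic over `K` and units at all places above the `v j`.

For all `n, d, r` there are a constant `C` and a nonzero homogeneous polynomial `F₀` of degree `C`
in the entries of `(D + 1) × n` matrices such that for all fields `Ω`, all subfields `K` and all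
valuations `v 0, ..., v D` of `K` with values in `ℤᵐ⁰` the following holds.  Call a translate
`g X`, `g ∈ G_m ^ n (K)`, typical if `dim Z + codim H ≤ d` for all closed irreducible `Z ⊆ g X` and
all `H` containing `Z` that are torsion cosets, or more generally translates of subtori by elements
that are algebraic over `K` and units at all places above the `v j` (if `dim X = d`, then `g X` has
no atypical subvariety, even relative to this larger class of special subvarieties).

* If `F₀` does not vanish at the valuation matrix of `g`, then the translates `g ^ m X`, `m ≠ 0`,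
  of all `X` with `UnitProjections v I d r` are typical.
* For each `X` with `ProjectionDegreeLE I d r` there is a nonzero polynomial `F` of degree at most
  `C` such that `g X` is typical whenever `F` does not vanish at the valuation matrix of `g`; and
  all but at most `C` of the translates `h g ^ m X`, `m ∈ ℤ`, are typical whenever `F₀` does not
  vanish at the valuation matrix of `g`, for all `h ∈ G_m ^ n (K)`.
* Let `γ 1, ..., γ s ∈ Kˣ` be such that the `D + 1` integer vectors `(log (v j (γ i)))_i` are
  linearly independent, let `h ∈ G_m ^ n (K)` and let `A` be a finite set of integers.  Consider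
  the points `g` with coordinates `h t * ∏ i, γ i ^ e (i, t)`, the exponents `e (i, t)` in `A`.
  For all of them but a proportion of at most `C / #A`, all translates `g X`, `X` as in the first
  item, are typical; and for each `X` as in the second item the proportion of those for which
  `g X` is not typical is at most `C / #A`. -/
theorem result :
    (∀ (Ω : Type w) [Field Ω] (n d : ℕ) (I : Ideal (MvPolynomial (Fin n) Ω)),
      ringKrullDim (MvPolynomial (Fin n) Ω ⧸ I) ≤ d → ∃ r, ProjectionDegreeLE I d r) ∧
    ∀ n d : ℕ, d < n → ∀ r : ℕ, ∃ (C : ℕ)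
      (F₀ : MvPolynomial (Fin ((d + 1) * (n - d - 1) + 1) × Fin n) ℚ),
      F₀ ≠ 0 ∧ F₀.IsHomogeneous C ∧
      ∀ (K : Type u) (Ω : Type w) [Field K] [Field Ω] [Algebra K Ω]
        (v : Fin ((d + 1) * (n - d - 1) + 1) → Valuation K ℤᵐ⁰),
        (∀ g : Fin n → Kˣ, eval (valMatrix v g) F₀ ≠ 0 → ∀ m : ℤ, m ≠ 0 →
          ∀ I : Ideal (MvPolynomial (Fin n) Ω), UnitProjections v I d r →
            TranslateTypical.{u, w, z} v I (g ^ m) d) ∧
        (∀ I : Ideal (MvPolynomial (Fin n) Ω), ProjectionDegreeLE I d r →
          (∃ F : MvPolynomial (Fin ((d + 1) * (n - d - 1) + 1) × Fin n) ℚ, F ≠ 0 ∧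
            F.totalDegree ≤ C ∧ ∀ g : Fin n → Kˣ, eval (valMatrix v g) F ≠ 0 →
              TranslateTypical.{u, w, z} v I g d) ∧
          ∀ g h : Fin n → Kˣ, eval (valMatrix v g) F₀ ≠ 0 →
            {m : ℤ | ¬ TranslateTypical.{u, w, z} v I (h * g ^ m) d}.encard ≤ C) ∧
        ∀ (s : ℕ) (γ : Fin s → Kˣ),
          LinearIndependent ℤ (fun j => fun i => log (v j (γ i : K))) →
          ∀ (h : Fin n → Kˣ) (A : Finset ℤ),
            ((Fintype.piFinset fun _ : Fin s × Fin n => A).filter fun e =>
              ∃ I : Ideal (MvPolynomial (Fin n) Ω), UnitProjections v I d r ∧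
                ¬ TranslateTypical.{u, w, z} v I
                  (h * fun t => ∏ i, γ i ^ e (i, t)) d).card * A.card ≤
              C * A.card ^ (s * n) ∧
            ∀ I : Ideal (MvPolynomial (Fin n) Ω), ProjectionDegreeLE I d r →
              ((Fintype.piFinset fun _ : Fin s × Fin n => A).filter fun e =>
                ¬ TranslateTypical.{u, w, z} v I
                  (h * fun t => ∏ i, γ i ^ e (i, t)) d).card * A.card ≤
                C * A.card ^ (s * n) := by
  refine ⟨fun Ω _ n d I hI => exists_projectionDegreeLE I hI, fun n d hd r => ?_⟩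
  obtain ⟨C, F₀, hF0, hFh, hF⟩ := exists_data.{u, w, z} n d hd r
  refine ⟨C, F₀, hF0, hFh, fun K Ω _ _ _ v => ⟨fun g hg m hm I hI => ?_,
    (hF K Ω v).2, fun s γ hγ h A => ⟨?_, fun I hI => ?_⟩⟩⟩
  · refine (hF K Ω v).1 I hI _ ?_
    have h1 := eval_smul_homog F₀ C (valMatrix v g) (m : ℚ)
    rw [homogeneousComponent_of_mem hFh, if_pos rfl] at h1
    rw [valMatrix_zpow, h1]
    exact mul_ne_zero (pow_ne_zero _ (by exact_mod_cast hm)) hg
  · refine count_zeros v γ hγ F₀ hF0 hFh.totalDegree_le h A _ ?_
    rintro e ⟨I, hI, hne⟩
    by_contra hcon
    exact hne ((hF K Ω v).1 I hI _ hcon)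
  · obtain ⟨⟨F, hF1, hF2, hF3⟩, -⟩ := (hF K Ω v).2 I hI
    refine count_zeros v γ hγ F hF1 hF2 h A _ ?_
    intro e hne
    by_contra hcon
    exact hne (hF3 _ hcon)

end Pool.Agent.Results.MP_a325a5_ag.UniformTranslates
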